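import Mathlib

/-!
# The finite 2-sunflower property is equivalent to the finite sunflower property

Let `K` be a Fraïssé class with strong amalgamation in a relational language. If `K` has the finite
2-sunflower property, then it has the finite `k`-sunflower property for every `k ≥ 1`.

Proof. The 2-sunflower property applied to the 2-sets `{v, f v}` gives, for every function `f` on
the vertices of `C`, a copy of `B` on which `f` is constant or injective (`canonical`). With strong
amalgamation (large extensions of `B`) this gives the vertex Ramsey property (`vertexRamsey`).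
Given `k`-sets `S v = {s_1 v, …, s_k v}`, apply `canonical` to `s_1, …, s_k` one after the other.
After this every `s_i` is constant or injective. The vertices `v ≠ w` are in conflict if
`s_i v = s_j w` for some `i ≠ j`; every vertex has at most `k ^ 2` conflicts, so the vertices have a
colouring with `k ^ 2 + 1` colours without conflicts inside a colour, and a monochromatic copy of
`B` is a sunflower whose kernel consists of the values of the constant `s_i`.
-/

set_option autoImplicit false

namespace Pool.Agent.Results.MP_ae912c_co.TwoSunflowerSuffices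

open FirstOrder FirstOrder.Language CategoryTheory

universe u v w

variable {L : FirstOrder.Language.{u, v}}

/-- Strong amalgamation: any two embeddings `f₀ : A → B₀`, `f₁ : A → B₁` between members of `K` can
be completed by embeddings `g₀ : B₀ → C`, `g₁ : B₁ → C` into a member `C` of `K` such that
`g₀ ∘ f₀ = g₁ ∘ f₁` and `g₀ (B₀) ∩ g₁ (B₁) = g₀ (f₀ (A))`. -/
def StrongAmalgamation (K : Set (Bundled.{w} L.Structure)) : Prop :=
  ∀ A B₀ B₁ : Bundled.{w} L.Structure, A ∈ K → B₀ ∈ K → B₁ ∈ K →
    ∀ (f₀ : A ↪[L] B₀) (f₁ : A ↪[L] B₁),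
      ∃ C : Bundled.{w} L.Structure, C ∈ K ∧ ∃ (g₀ : B₀ ↪[L] C) (g₁ : B₁ ↪[L] C),
        (∀ a : A, g₀ (f₀ a) = g₁ (f₁ a)) ∧
          Set.range g₀ ∩ Set.range g₁ = Set.range fun a : A => g₀ (f₀ a)

/-- The finite `k`-sunflower property: for every `B` in `K` there is `C` in `K` such that, whenever
`D` is a set of `k`-sets carrying an `L`-structure isomorphic to `C`, some substructure `B'` of `D`
is isomorphic to `B` and is a structured sunflower: any two distinct elements of `B'` (which are
`k`-sets) have the same intersection `c`. -/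
def FiniteSunflower (K : Set (Bundled.{w} L.Structure)) (k : ℕ) : Prop :=
  ∀ B : Bundled.{w} L.Structure, B ∈ K → ∃ C : Bundled.{w} L.Structure, C ∈ K ∧
    ∀ (X : Type w) (D : Set (Finset X)) (_ : L.Structure D),
      (∀ s ∈ D, s.card = k) → Nonempty (C ≃[L] D) →
        ∃ B' : L.Substructure D, Nonempty (B ≃[L] B') ∧
          ∃ c : Set X, ∀ s ∈ B', ∀ t ∈ B', s ≠ t →
            (((s : Finset X) : Set X) ∩ ((t : Finset X) : Set X)) = c

/-- Indexed form of the finite sunflower property. -/
def FS (K : Set (Bundled.{w} L.Structure)) (k : ℕ) : Prop :=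
  ∀ B : Bundled.{w} L.Structure, B ∈ K → ∃ C : Bundled.{w} L.Structure, C ∈ K ∧
    ∀ (X : Type w) (S : C → Finset X), Function.Injective S → (∀ v, (S v).card = k) →
      ∃ (e : B ↪[L] C) (c : Set X), ∀ x y : B, x ≠ y →
        ((S (e x) : Set X) ∩ (S (e y) : Set X)) = c

theorem fs_of (K : Set (Bundled.{w} L.Structure)) (k : ℕ) (h : FiniteSunflower K k) : FS K k := by
  intro B hB
  obtain ⟨C, hC, hC2⟩ := h B hB
  refine ⟨C, hC, fun X S hS hk => ?_⟩
  let φ : C ≃ Set.range S := Equiv.ofInjective S hS
  let _ : L.Structure (Set.range S) := φ.inducedStructure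
  let ψ : C ≃[L] Set.range S := φ.inducedStructureEquiv
  obtain ⟨B', ⟨i⟩, c, hc⟩ := hC2 X (Set.range S) inferInstance (by
    rintro _ ⟨v, rfl⟩
    exact hk v) ⟨ψ⟩
  let e : B ↪[L] C := ψ.symm.toEmbedding.comp (B'.subtype.comp i.toEmbedding)
  have he : ∀ x : B, S (e x) = ((i x : Set.range S) : Finset X) := by
    intro x
    have h1 : ψ (e x) = (i x : Set.range S) := ψ.apply_symm_apply _
    have h2 : ((ψ (e x) : Set.range S) : Finset X) = S (e x) := rfl
    rw [← h2, h1]
  refine ⟨e, c, fun x y hxy => ?_⟩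
  rw [he x, he y]
  refine hc _ (i x).2 _ (i y).2 ?_
  intro h1
  exact hxy (i.injective (Subtype.ext h1))

theorem of_fs (K : Set (Bundled.{w} L.Structure)) (k : ℕ) (h : FS K k) : FiniteSunflower K k := by
  intro B hB
  obtain ⟨C, hC, hC2⟩ := h B hB
  refine ⟨C, hC, fun X D _ hk ⟨ψ⟩ => ?_⟩
  obtain ⟨e, c, hc⟩ := hC2 X (fun v => ((ψ v : D) : Finset X)) (by
    intro v w hvw
    exact ψ.injective (Subtype.ext hvw)) (fun v => hk _ (ψ v).2)
  let g : B ↪[L] D := ψ.toEmbedding.comp e
  refine ⟨g.toHom.range, ⟨g.equivRange⟩, c, ?_⟩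
  rintro s ⟨x, -, rfl⟩ t ⟨y, -, rfl⟩ hst
  refine hc x y ?_
  rintro rfl
  exact hst rfl

/-- Canonical vertex partitions. -/
def Canon (K : Set (Bundled.{w} L.Structure)) : Prop :=
  ∀ B : Bundled.{w} L.Structure, B ∈ K → ∃ C : Bundled.{w} L.Structure, C ∈ K ∧
    ∀ (X : Type w) (f : C → X), ∃ e : B ↪[L] C,
      (∀ x y : B, f (e x) = f (e y)) ∨ Function.Injective fun x : B => f (e x)

theorem canonical (K : Set (Bundled.{w} L.Structure)) (h : FS K 2) : Canon K := by
  classical
  intro B hB
  obtain ⟨C, hC, hC2⟩ := h B hB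
  refine ⟨C, hC, fun X f => ?_⟩
  obtain ⟨e, c, hc⟩ := hC2 (C ⊕ X) (fun v => {Sum.inl v, Sum.inr (f v)}) (by
    intro v w hvw
    have h1 : (Sum.inl v : C ⊕ X) ∈ ({Sum.inl w, Sum.inr (f w)} : Finset (C ⊕ X)) := by
      have := (Finset.ext_iff.1 hvw (Sum.inl v)).1 (by simp)
      exact this
    simpa using h1) (fun v => Finset.card_pair (by simp))
  refine ⟨e, ?_⟩
  by_cases hinj : Function.Injective fun x : B => f (e x)
  · exact Or.inr hinj
  left
  simp only [Function.Injective, not_forall] at hinj
  obtain ⟨x₀, y₀, h0, hne⟩ := hinj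
  have hmem : (Sum.inr (f (e x₀)) : C ⊕ X) ∈ c := by
    rw [← hc x₀ y₀ hne]
    have h0' : f (e x₀) = f (e y₀) := h0
    refine ⟨?_, ?_⟩
    · simp
    · rw [h0']
      simp
  have key : ∀ x : B, f (e x) = f (e x₀) := by
    intro x
    obtain ⟨y, hy⟩ : ∃ y, x ≠ y := by
      by_cases hx : x = x₀
      · exact ⟨y₀, hx ▸ hne⟩
      · exact ⟨x₀, hx⟩
    rw [← hc x y hy] at hmem
    have := hmem.1
    simp only [Finset.coe_insert, Finset.coe_singleton, Set.mem_insert_iff,
      Set.mem_singleton_iff] at this
    rcases this with h1 | h1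
    · exact absurd h1 (by simp)
    · exact (Sum.inr.inj h1).symm
  intro x y
  rw [key x, key y]

/-- Every nonempty member of the class has extensions with many points. -/
theorem large [L.IsRelational] (K : Set (Bundled.{w} L.Structure)) (hK : IsFraisse K)
    (hs : StrongAmalgamation K) (B : Bundled.{w} L.Structure) (hB : B ∈ K) (b : B) (n : ℕ) :
    ∃ D : Bundled.{w} L.Structure, D ∈ K ∧ Nonempty (B ↪[L] D) ∧ Nonempty (Fin (n + 1) ↪ D) := by
  induction n with
  | zero => exact ⟨B, hB, ⟨Embedding.refl L B⟩, ⟨⟨fun _ => b, fun x y _ => by omega⟩⟩⟩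
  | succ n ih =>
    obtain ⟨D, hD, ⟨i⟩, ⟨j⟩⟩ := ih
    let A : L.Substructure (B : Type w) := ⊥
    have hA : (Bundled.mk A : Bundled.{w} L.Structure) ∈ K := hK.hereditary B hB
      (age.fg_substructure Substructure.fg_bot)
    have hAe : IsEmpty A := by
      constructor
      rintro ⟨x, hx⟩
      have hx' : x ∈ Substructure.closure L (∅ : Set B) := by
        rw [Substructure.closure_empty]
        exact hx
      rw [Substructure.mem_closure_iff_of_isRelational] at hx'
      exact hx'
    obtain ⟨C, hC, g₀, g₁, -, hr⟩ := hs (Bundled.mk A) D B hA hD hB (i.comp A.subtype) A.subtype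
    have hdis : ∀ x y, g₀ x ≠ g₁ y := by
      intro x y hxy
      have h1 : g₀ x ∈ Set.range g₀ ∩ Set.range g₁ := ⟨⟨x, rfl⟩, ⟨y, hxy.symm⟩⟩
      rw [hr] at h1
      obtain ⟨a, -⟩ := h1
      exact hAe.false a
    refine ⟨C, hC, ⟨g₁⟩, ⟨⟨Fin.lastCases (g₁ b) (fun t => g₀ (j t)), ?_⟩⟩⟩
    intro x y hxy
    induction x using Fin.lastCases with
    | last =>
      induction y using Fin.lastCases with
      | last => rfl
      | cast y =>
        simp only [Fin.lastCases_last, Fin.lastCases_castSucc] at hxy
        exact absurd hxy.symm (hdis _ _)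
    | cast x =>
      induction y using Fin.lastCases with
      | last =>
        simp only [Fin.lastCases_last, Fin.lastCases_castSucc] at hxy
        exact absurd hxy (hdis _ _)
      | cast y =>
        simp only [Fin.lastCases_castSucc] at hxy
        rw [j.injective (g₀.injective hxy)]

/-- The vertex Ramsey property. -/
theorem vertexRamsey [L.IsRelational] (K : Set (Bundled.{w} L.Structure)) (hK : IsFraisse K)
    (hs : StrongAmalgamation K) (hc : Canon K) (m : ℕ) (B : Bundled.{w} L.Structure) (hB : B ∈ K) :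
    ∃ C : Bundled.{w} L.Structure, C ∈ K ∧ ∀ f : C → Fin m, ∃ e : B ↪[L] C,
      ∀ x y : B, f (e x) = f (e y) := by
  rcases isEmpty_or_nonempty B with hE | ⟨⟨b⟩⟩
  · exact ⟨B, hB, fun f => ⟨Embedding.refl L B, fun x => (hE.false x).elim⟩⟩
  obtain ⟨D, hD, ⟨i⟩, ⟨j⟩⟩ := large K hK hs B hB b m
  obtain ⟨C, hC, hC2⟩ := hc D hD
  refine ⟨C, hC, fun f => ?_⟩
  obtain ⟨e, he⟩ := hC2 (ULift.{w} (Fin m)) (fun x => ULift.up (f x))
  rcases he with he | he
  · exact ⟨e.comp i, fun x y => ULift.up_injective (he (i x) (i y))⟩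
  · exfalso
    have h1 : Function.Injective fun t : Fin (m + 1) => f (e (j t)) := by
      intro s t hst
      exact j.injective (he (congrArg ULift.up hst))
    have := Fintype.card_le_of_injective _ h1
    simp at this

/-- Colouring of a finite set in which every point has at most `d` conflicts. -/
theorem greedy {V : Type w} [Finite V] (r : V → V → Prop) (hsymm : ∀ x y, r x y → r y x) (d : ℕ)
    (hd : ∀ x, ∃ s : Finset V, s.card ≤ d ∧ ∀ y, r x y → y ∈ s) :
    ∃ f : V → Fin (d + 1), ∀ x y, x ≠ y → r x y → f x ≠ f y := by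
  classical
  cases nonempty_fintype V
  have key : ∀ U : Finset V, ∃ f : V → Fin (d + 1), ∀ x ∈ U, ∀ y ∈ U, x ≠ y → r x y → f x ≠ f y := by
    intro U
    induction U using Finset.induction_on with
    | empty => exact ⟨fun _ => 0, by simp⟩
    | insert a U ha ih =>
      obtain ⟨f, hf⟩ := ih
      obtain ⟨s, hs, hs2⟩ := hd a
      obtain ⟨c, hc⟩ : ∃ c : Fin (d + 1), c ∉ s.image f := by
        by_contra hcon
        push Not at hcon
        have h1 : (Finset.univ : Finset (Fin (d + 1))) ⊆ s.image f := fun c _ => hcon c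
        have h2 := Finset.card_le_card h1
        have h3 := Finset.card_image_le (s := s) (f := f)
        simp at h2
        omega
      refine ⟨Function.update f a c, ?_⟩
      intro x hx y hy hxy hr
      rw [Finset.mem_insert] at hx hy
      rcases hx with rfl | hx
      · rcases hy with rfl | hy
        · exact absurd rfl hxy
        · rw [Function.update_self, Function.update_of_ne (Ne.symm hxy)]
          rintro rfl
          exact hc (Finset.mem_image_of_mem f (hs2 y hr))
      · have hxa : x ≠ a := fun h => ha (h ▸ hx)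
        rcases hy with rfl | hy
        · rw [Function.update_self, Function.update_of_ne hxa]
          intro h
          exact hc (h ▸ Finset.mem_image_of_mem f (hs2 x (hsymm _ _ hr)))
        · have hya : y ≠ a := fun h => ha (h ▸ hy)
          rw [Function.update_of_ne hxa, Function.update_of_ne hya]
          exact hf x hx y hy hxy hr
  obtain ⟨f, hf⟩ := key Finset.univ
  exact ⟨f, fun x y => hf x (Finset.mem_univ _) y (Finset.mem_univ _)⟩

/-- Iterated canonical partition for finitely many functions. -/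
theorem iterCanon (K : Set (Bundled.{w} L.Structure)) (hc : Canon K) (k : ℕ)
    (B : Bundled.{w} L.Structure) (hB : B ∈ K) :
    ∃ C : Bundled.{w} L.Structure, C ∈ K ∧ ∀ (X : Type w) (s : Fin k → C → X),
      ∃ e : B ↪[L] C, ∀ i, (∀ x y : B, s i (e x) = s i (e y)) ∨
        Function.Injective fun x : B => s i (e x) := by
  induction k with
  | zero => exact ⟨B, hB, fun X s => ⟨Embedding.refl L B, fun i => i.elim0⟩⟩
  | succ k ih =>
    obtain ⟨D, hD, hD2⟩ := ih
    obtain ⟨C, hC, hC2⟩ := hc D hD
    refine ⟨C, hC, fun X s => ?_⟩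
    obtain ⟨g, hg⟩ := hC2 X (s (Fin.last k))
    obtain ⟨e, he⟩ := hD2 X (fun i x => s i.castSucc (g x))
    refine ⟨g.comp e, fun i => ?_⟩
    induction i using Fin.lastCases with
    | last =>
      rcases hg with hg | hg
      · left
        intro x y
        exact hg _ _
      · right
        intro x y hxy
        exact e.injective (hg hxy)
    | cast i => exact he i

theorem main [L.IsRelational] (K : Set (Bundled.{w} L.Structure)) (hK : IsFraisse K)
    (hs : StrongAmalgamation K) (h2 : FS K 2) (k : ℕ) : FS K k := by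
  classical
  intro B hB
  have hc := canonical K h2
  obtain ⟨D, hD, hD2⟩ := vertexRamsey K hK hs hc (k * k + 1) B hB
  obtain ⟨C, hC, hC2⟩ := iterCanon K hc k D hD
  refine ⟨C, hC, fun X S hS hk => ?_⟩
  -- enumerate the sets
  let s : Fin k → C → X := fun i v => ((S v).equivFinOfCardEq (hk v)).symm i
  have hsinj : ∀ v i j, s i v = s j v → i = j := by
    intro v i j hij
    have := ((S v).equivFinOfCardEq (hk v)).symm.injective (Subtype.ext hij)
    exact this
  have hmem : ∀ v p, p ∈ S v ↔ ∃ i, s i v = p := by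
    intro v p
    constructor
    · intro hp
      refine ⟨(S v).equivFinOfCardEq (hk v) ⟨p, hp⟩, ?_⟩
      show ((((S v).equivFinOfCardEq (hk v)).symm _ : S v) : X) = p
      rw [Equiv.symm_apply_apply]
    · rintro ⟨i, rfl⟩
      exact (((S v).equivFinOfCardEq (hk v)).symm i).2
  obtain ⟨g, hg⟩ := hC2 X s
  have hfin : Finite D := (hK.FG D hD).finite
  -- conflicts
  let r : D → D → Prop := fun v w => ∃ i j, i ≠ j ∧ s i (g v) = s j (g w)
  have hconst : ∀ i j, i ≠ j → (∀ x y : D, s i (g x) = s i (g y)) → ∀ v w : D,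
      s i (g v) ≠ s j (g w) := by
    intro i j hij hi v w h
    rw [hi v w] at h
    exact hij (hsinj _ _ _ h)
  obtain ⟨f, hf⟩ := greedy r (by
    rintro v w ⟨i, j, hij, h⟩
    exact ⟨j, i, hij.symm, h.symm⟩) (k * k) (by
    intro v
    let t : Fin k × Fin k → D := fun p =>
      if h : ∃ w, p.1 ≠ p.2 ∧ s p.1 (g v) = s p.2 (g w) then h.choose else v
    refine ⟨Finset.univ.image t, ?_, ?_⟩
    · refine Finset.card_image_le.trans ?_
      simp
    · rintro w ⟨i, j, hij, h⟩
      have hex : ∃ w, (i, j).1 ≠ (i, j).2 ∧ s (i, j).1 (g v) = s (i, j).2 (g w) := ⟨w, hij, h⟩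
      have ht : t (i, j) = hex.choose := dif_pos hex
      have hsp := hex.choose_spec.2
      have hj : Function.Injective fun x : D => s j (g x) := by
        rcases hg j with h1 | h1
        · exact absurd h.symm (hconst j i hij.symm h1 w v)
        · exact h1
      have hw : w = hex.choose := hj (h.symm.trans hsp)
      rw [Finset.mem_image]
      exact ⟨(i, j), Finset.mem_univ _, by rw [ht, ← hw]⟩)
  obtain ⟨e, he⟩ := hD2 f
  refine ⟨g.comp e, {p | ∃ i, (∀ x y : D, s i (g x) = s i (g y)) ∧ ∃ x : B, s i (g (e x)) = p}, ?_⟩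
  intro x y hxy
  have hxy' : e x ≠ e y := fun h => hxy (e.injective h)
  have hnr : ¬ r (e x) (e y) := fun h => hf _ _ hxy' h (he x y)
  ext p
  simp only [Set.mem_inter_iff, Finset.mem_coe, Set.mem_ofPred_eq]
  have e1 : ∀ z : B, (g.comp e) z = g (e z) := fun z => rfl
  rw [e1, e1, hmem, hmem]
  constructor
  · rintro ⟨⟨i, hi⟩, ⟨j, hj⟩⟩
    by_cases hij : i = j
    · subst hij
      rcases hg i with h1 | h1
      · exact ⟨i, h1, x, hi⟩
      · exact absurd (h1 (hi.trans hj.symm)) hxy'
    · exact absurd ⟨i, j, hij, hi.trans hj.symm⟩ hnr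
  · rintro ⟨i, h1, z, hz⟩
    exact ⟨⟨i, (h1 _ _).trans hz⟩, ⟨i, (h1 _ _).trans hz⟩⟩

/-- For every Fraïssé class with strong amalgamation in a relational language, the finite
2-sunflower property and the finite sunflower property (the finite `k`-sunflower property for all
`k ≥ 1`) are equivalent. -/
theorem result {L : FirstOrder.Language.{u, v}} [L.IsRelational]
    (K : Set (Bundled.{w} L.Structure)) (hK : IsFraisse K) (hs : StrongAmalgamation K) :
    FiniteSunflower K 2 ↔ ∀ k : ℕ, 1 ≤ k → FiniteSunflower K k :=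
  ⟨fun h k _ => of_fs K k (main K hK hs (fs_of K 2 h) k), fun h => h 2 (by norm_num)⟩

end Pool.Agent.Results.MP_ae912c_co.TwoSunflowerSuffices
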